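import Pool.Agent.helper90.DH.SpecI

set_option autoImplicit false

open Filter Topology MeasureTheory
open scoped commutatorElement

namespace Pool.Agent.helper90.DH

open Pool.Agent.helper64.D2

/-- Telescoping. -/
theorem RTB_tele (q s0 S : ℕ) (w : ℕ → ℕ → ℤ → ℝ) (y : ℝ → ℝ) (z : ℝ) (hq : 1 ≤ q) (hS : s0 ≤ S)
    (hw : ∀ (s : ℕ) (k : ℤ), s0 ≤ s → s < S → ∑ i ∈ Finset.range q, w i s k = 1) :
    ∑ i ∈ Finset.range q, vf q s0 S (w i) y z = Es S y z := by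
  have hq' : (q : ℝ) ≠ 0 := by
    have : (1 : ℝ) ≤ (q : ℝ) := by exact_mod_cast hq
    linarith
  unfold vf
  rw [Finset.sum_add_distrib, Finset.sum_const, Finset.card_range, nsmul_eq_mul, Finset.sum_comm]
  have h1 : ∀ s ∈ Finset.Ico s0 S, ∑ i ∈ Finset.range q, w i s (ci s z) * Ds s y z = Es (s + 1) y z - Es s y z := by
    intro s hs
    rw [Finset.mem_Ico] at hs
    rw [← Finset.sum_mul, hw s _ hs.1 hs.2, one_mul]
    rfl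
  rw [Finset.sum_congr rfl h1, Finset.sum_Ico_sub (fun s => Es s y z) hS]
  field_simp
  ring

theorem RTB (hSJM : SJM_stmt) (hHYV : HYV_stmt) (hRLC : RLC_stmt) : RTB_stmt := by
  intro K0 a hok hgp hrou N p p' hy j x hinv hN
  have hnb : NB (1 + a.ac + 1) a.w0 (a.ρ ^ 4) (a.ρ ^ 2) := hok.2.2.2.2.2.2.2.2.2.1
  have hq : 1 ≤ a.ρ ^ 4 := hnb.1
  have hs0 : 1000 ≤ a.ρ ^ 2 := by
    have h := hnb.2.2.2
    have h' : 1 ≤ 3 * a.w0 * 2 ^ a.w0 + 10 * a.w0 + (1 + a.ac + 1) := by omega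
    calc 1000 = 1000 * 1 := by norm_num
      _ ≤ 1000 * (3 * a.w0 * 2 ^ a.w0 + 10 * a.w0 + (1 + a.ac + 1)) := Nat.mul_le_mul_left _ h'
      _ ≤ a.ρ ^ 2 := h
  obtain ⟨j1, j2, j3, j4, j5, j6, j7⟩ := hSJM (a.ρ ^ 2) hs0
  obtain ⟨hmst, _, hrok, hblk, _⟩ := hinv
  obtain ⟨_, _, _, hhis, _, _⟩ := hmst
  obtain ⟨y1, y2, y3, y4, y5, y6, _⟩ := hy
  have hy0 : ∀ x, x ∉ Set.Icc (29 / 100 : ℝ) (7 / 10) → a.y x = 0 := by
    intro u hu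
    refine y5 u (fun hu' => hu ?_)
    exact ⟨le_trans y2 hu'.1, le_trans hu'.2 y4⟩
  obtain ⟨cm', hcm1, hcm2⟩ : ∃ cm' : ℕ → ℕ → DD, (∀ s < sj (a.ρ ^ 2) j, cm' s = x.cm s) ∧ ∀ s, sj (a.ρ ^ 2) j ≤ s → cm' s = x.cs (j + 1) := by
    classical
    refine ⟨fun s => if s < sj (a.ρ ^ 2) j then x.cm s else x.cs (j + 1), ?_, ?_⟩
    · intro s hs
      show (if s < sj (a.ρ ^ 2) j then x.cm s else x.cs (j + 1)) = _
      rw [if_pos hs]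
    · intro s hs
      show (if s < sj (a.ρ ^ 2) j then x.cm s else x.cs (j + 1)) = _
      rw [if_neg (not_lt.2 hs)]
  have hblk' : ∀ j' ≤ j, ∀ s, sj (a.ρ ^ 2) j' ≤ s → s < sj (a.ρ ^ 2) (j' + 1) → cm' s = x.cs (j' + 1) := by
    intro j' hj' s h1 h2
    rcases Nat.lt_or_ge j' j with h | h
    · have h3 : s < sj (a.ρ ^ 2) j := lt_of_lt_of_le h2 (j5 (j' + 1) j h)
      rw [hcm1 s h3]
      exact hblk j' h s h1 h2
    · have : j' = j := le_antisymm hj' h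
      subst this
      exact hcm2 s h1
  obtain ⟨σ, hσ, hHY⟩ := hHYV K0 a hok hgp j x.cs cm' hhis hblk'
  have hind : ∀ S, sj (a.ρ ^ 2) j ≤ S → S ≤ sj (a.ρ ^ 2) (j + 1) →
      ∃ D' : RD, AGR (sj (a.ρ ^ 2) j) x.cm cm' x.D D' ∧ ROK (a.rp cm') D' S := by
    intro S hS
    induction S, hS using Nat.le_induction with
    | base =>
      intro _
      refine ⟨x.D, ?_, ?_⟩
      · intro s hs
        exact ⟨(hcm1 s hs).symm, rfl, rfl, rfl⟩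
      · exact (hRLC (a.ρ ^ 4) (a.ρ ^ 2) a.w0 a.ac x.cm cm' a.y x.D x.D (sj (a.ρ ^ 2) j)
          (fun s hs => ⟨(hcm1 s hs).symm, rfl, rfl, rfl⟩)).1 hrok
    | succ S hS ih =>
      intro hS2
      obtain ⟨D', hD1, hD2⟩ := ih (by omega)
      have hlt : S < sj (a.ρ ^ 2) (j + 1) := by omega
      have hs0S : a.ρ ^ 2 ≤ S := le_trans (j1 j) hS
      obtain ⟨D'', hE1, hE2⟩ := (hrou cm' σ a.y N y1 hy0 y6 S D' hs0S (by omega) (hHY S hs0S hlt)).1 hD2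
      refine ⟨D'', ?_, hE2⟩
      intro s hs
      obtain ⟨e1, e2, e3⟩ := hE1 s (lt_of_lt_of_le hs hS)
      obtain ⟨d0, d1, d2, d3⟩ := hD1 s hs
      exact ⟨d0, d1.trans e1.symm, d2.trans e2.symm, d3.trans e3.symm⟩
  obtain ⟨D', hD1, hD2⟩ := hind (sj (a.ρ ^ 2) (j + 1)) (le_of_lt (j2 j)) le_rfl
  obtain ⟨S, hS⟩ : ∃ S, S + 1 = sj (a.ρ ^ 2) (j + 1) := ⟨sj (a.ρ ^ 2) (j + 1) - 1, by have := j2 j; omega⟩
  have hSj : sj (a.ρ ^ 2) j ≤ S := by have := j2 j; omega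
  have hs0S : a.ρ ^ 2 ≤ S := le_trans (j1 j) hSj
  have hlt : S < sj (a.ρ ^ 2) (j + 1) := by omega
  have hR := (hrou cm' σ a.y N y1 hy0 y6 S D' hs0S (by omega) (hHY S hs0S hlt)).2 (by rw [hS]; exact hD2)
  rw [hσ S hSj hlt, hS, hcm2 S hSj] at hR
  obtain ⟨r1, r2, r3⟩ := hR
  refine ⟨cm', D', hD1, hcm2, hD2, ?_, ?_, r3⟩
  · intro i hi
    refine ⟨?_, r2 i hi⟩
    intro s k h1 h2 _
    exact (r1 s k h1 (by omega)).2 i hi
  · intro z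
    exact RTB_tele (a.ρ ^ 4) (a.ρ ^ 2) (sj (a.ρ ^ 2) (j + 1)) (fun i s k => rwt (a.rp cm') D' s i k) a.y z hq (j1 (j + 1))
      (fun s k h1 h2 => (r1 s k h1 (by omega)).1)

end Pool.Agent.helper90.DH
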